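import Mathlib

/-!
# A lower bound for an alternating sum of Bessel type
-/

set_option autoImplicit false

namespace Pool.Agent.W528.Apery

open MeasureTheory Set

/-- The partial sums of the series of `exp (-z)`. -/
noncomputable def T (N : ℕ) (z : ℝ) : ℝ := ∑ b ∈ Finset.range N, (-z) ^ b / (b.factorial : ℝ)

lemma T_succ (N : ℕ) (z : ℝ) : T (N + 1) z = T N z + (-z) ^ N / (N.factorial : ℝ) := by
  unfold T; rw [Finset.sum_range_succ]

lemma T_zero_right (N : ℕ) : T (N + 1) 0 = 1 := by
  unfold T
  rw [Finset.sum_range_succ']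
  simp

lemma hasDerivAt_T (N : ℕ) (z : ℝ) : HasDerivAt (T (N + 1)) (- T N z) z := by
  unfold T
  have h : ∀ b ∈ Finset.range (N + 1), HasDerivAt (fun z : ℝ => (-z) ^ b / (b.factorial : ℝ))
      (if b = 0 then 0 else -((-z) ^ (b - 1) / ((b - 1).factorial : ℝ))) z := by
    intro b _
    rcases Nat.eq_zero_or_pos b with rfl | hb
    · simpa using hasDerivAt_const z (1 : ℝ)
    · obtain ⟨c, rfl⟩ : ∃ c, b = c + 1 := ⟨b - 1, by omega⟩
      have h1 : HasDerivAt (fun z : ℝ => (-z) ^ (c + 1) / ((c + 1).factorial : ℝ))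
          (((c + 1 : ℕ) * (-z) ^ c * (-1)) / ((c + 1).factorial : ℝ)) z := by
        have := ((hasDerivAt_neg z).pow (c + 1)).div_const ((c + 1).factorial : ℝ)
        simpa using this
      refine h1.congr_deriv ?_
      rw [if_neg (by omega), Nat.factorial_succ]
      have hc : ((c.factorial : ℕ) : ℝ) ≠ 0 := by exact_mod_cast c.factorial_ne_zero
      have hc1 : ((c : ℝ) + 1) ≠ 0 := by positivity
      push_cast
      field_simp
  refine (HasDerivAt.fun_sum h).congr_deriv ?_
  rw [Finset.sum_range_succ']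
  simp [Finset.sum_neg_distrib]

/-- The partial sums with an odd number of terms are at least, those with an even number of terms
at most, `exp (-z)`. -/
lemma T_alternating (N : ℕ) (z : ℝ) (hz : 0 ≤ z) :
    0 ≤ (-1) ^ N * (Real.exp (-z) - T N z) := by
  induction N generalizing z with
  | zero => simp [T, Real.exp_nonneg]
  | succ N ih =>
    have hmono : MonotoneOn (fun z : ℝ => (-1) ^ (N + 1) * (Real.exp (-z) - T (N + 1) z)) (Ici 0) := by
      have hd : ∀ x : ℝ, HasDerivAt (fun z : ℝ => (-1) ^ (N + 1) * (Real.exp (-z) - T (N + 1) z))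
          ((-1) ^ N * (Real.exp (-x) - T N x)) x := by
        intro x
        have h1 : HasDerivAt (fun z : ℝ => Real.exp (-z)) (-Real.exp (-x)) x := by
          simpa using (hasDerivAt_neg x).exp
        refine ((h1.sub (hasDerivAt_T N x)).const_mul ((-1 : ℝ) ^ (N + 1))).congr_deriv ?_
        ring
      refine monotoneOn_of_deriv_nonneg (convex_Ici 0) ?_ ?_ ?_
      · exact fun x _ => (hd x).continuousAt.continuousWithinAt
      · exact fun x _ => (hd x).differentiableAt.differentiableWithinAt
      · intro x hx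
        rw [(hd x).deriv]
        rw [interior_Ici] at hx
        exact ih x (le_of_lt hx)
    have h3 := hmono (mem_Ici.2 le_rfl) (mem_Ici.2 hz) hz
    refine le_trans ?_ h3
    simp [T_zero_right]

/-- The lower bound for the partial sums. -/
lemma T_lower (N : ℕ) (z : ℝ) (hz : 0 ≤ z) :
    Real.exp (-z) - z ^ N / (N.factorial : ℝ) ≤ T (N + 1) z := by
  have hpos : 0 ≤ z ^ N / (N.factorial : ℝ) := by positivity
  rcases Nat.even_or_odd N with hN | hN
  · -- `N + 1` odd
    have h := T_alternating (N + 1) z hz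
    rw [pow_succ, hN.neg_one_pow] at h
    linarith
  · have h := T_alternating N z hz
    rw [hN.neg_one_pow] at h
    rw [T_succ, hN.neg_pow]
    have : -z ^ N / (N.factorial : ℝ) = - (z ^ N / (N.factorial : ℝ)) := by ring
    rw [this]
    linarith

/-- The alternating sum. -/
noncomputable def P (N : ℕ) (x : ℝ) : ℝ :=
  ∑ b ∈ Finset.range (N + 1), (-1) ^ b * ((N - b).factorial : ℝ) / (b.factorial : ℝ) * x ^ b

lemma integrable_pow_exp (n : ℕ) : IntegrableOn (fun y : ℝ => y ^ n * Real.exp (-y)) (Ioi 0) := by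
  have h := Real.GammaIntegral_convergent (s := (n : ℝ) + 1) (by positivity)
  refine h.congr_fun ?_ measurableSet_Ioi
  intro y _
  simp only
  rw [add_sub_cancel_right, Real.rpow_natCast, mul_comm]

lemma integral_pow_exp (n : ℕ) : ∫ y in Ioi (0 : ℝ), y ^ n * Real.exp (-y) = (n.factorial : ℝ) := by
  have h := Real.Gamma_nat_eq_factorial n
  rw [Real.Gamma_eq_integral (by positivity)] at h
  rw [← h]
  refine setIntegral_congr_fun measurableSet_Ioi ?_
  intro y _
  simp only
  rw [add_sub_cancel_right, Real.rpow_natCast, mul_comm]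

lemma P_eq_integral (N : ℕ) (x : ℝ) :
    P N x = ∫ y in Ioi (0 : ℝ), ∑ b ∈ Finset.range (N + 1),
      ((-1) ^ b / (b.factorial : ℝ) * x ^ b) * (y ^ (N - b) * Real.exp (-y)) := by
  rw [integral_finsetSum]
  · unfold P
    refine Finset.sum_congr rfl fun b _ => ?_
    rw [integral_const_mul, integral_pow_exp]
    ring
  · intro b _
    exact (integrable_pow_exp (N - b)).const_mul _

lemma P_lower (N : ℕ) (s : ℝ) (hs : 0 < s) :
    Real.exp (-s) * ((N.factorial : ℝ) - s ^ N) - s ^ (2 * N) / (N.factorial : ℝ) ≤ P N (s ^ 2) := by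
  have hint : Real.exp (-s) * ((N.factorial : ℝ) - s ^ N) - s ^ (2 * N) / (N.factorial : ℝ) =
      ∫ y in Ioi (0 : ℝ), (Real.exp (-s) * (y ^ N * Real.exp (-y)) -
        (Real.exp (-s) * s ^ N + s ^ (2 * N) / (N.factorial : ℝ)) * (y ^ 0 * Real.exp (-y))) := by
    rw [integral_sub ((integrable_pow_exp N).const_mul _) ((integrable_pow_exp 0).const_mul _),
      integral_const_mul, integral_const_mul, integral_pow_exp, integral_pow_exp]
    simp
    ring
  rw [hint, P_eq_integral]
  refine setIntegral_mono_on ?_ ?_ measurableSet_Ioi ?_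
  · exact ((integrable_pow_exp N).const_mul _).sub ((integrable_pow_exp 0).const_mul _)
  · exact integrable_finsetSum _ fun b _ => (integrable_pow_exp (N - b)).const_mul _
  · intro y hy
    have hy0 : 0 < y := hy
    have hE : 0 < Real.exp (-y) := Real.exp_pos _
    have h1 : ∑ b ∈ Finset.range (N + 1),
        ((-1) ^ b / (b.factorial : ℝ) * (s ^ 2) ^ b) * (y ^ (N - b) * Real.exp (-y)) =
        (y ^ N * T (N + 1) (s ^ 2 / y)) * Real.exp (-y) := by
      unfold T
      rw [Finset.mul_sum, Finset.sum_mul]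
      refine Finset.sum_congr rfl fun b hb => ?_
      rw [Finset.mem_range] at hb
      have h2 : y ^ N = y ^ (N - b) * y ^ b := by rw [← pow_add]; congr 1; omega
      rw [h2, neg_pow (s ^ 2 / y), div_pow]
      have h3 : y ^ b ≠ 0 := (pow_pos hy0 b).ne'
      field_simp
    rw [h1]
    have h4 := T_lower N (s ^ 2 / y) (by positivity)
    have h5 : y ^ N * (Real.exp (-(s ^ 2 / y)) - (s ^ 2 / y) ^ N / (N.factorial : ℝ)) ≤
        y ^ N * T (N + 1) (s ^ 2 / y) := mul_le_mul_of_nonneg_left h4 (by positivity)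
    have h6 : y ^ N * ((s ^ 2 / y) ^ N / (N.factorial : ℝ)) = s ^ (2 * N) / (N.factorial : ℝ) := by
      rw [div_pow, ← pow_mul]
      have h3 : y ^ N ≠ 0 := (pow_pos hy0 N).ne'
      field_simp
    have h7 : Real.exp (-s) * (y ^ N - s ^ N) ≤ y ^ N * Real.exp (-(s ^ 2 / y)) := by
      rcases le_total s y with hsy | hsy
      · have h8 : Real.exp (-s) ≤ Real.exp (-(s ^ 2 / y)) := by
          apply Real.exp_le_exp.2
          have : s ^ 2 / y ≤ s := by
            rw [div_le_iff₀ hy0]
            nlinarith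
          linarith
        have h9 : 0 ≤ s ^ N := by positivity
        have h10 : 0 ≤ y ^ N := by positivity
        have h11 : 0 < Real.exp (-s) := Real.exp_pos _
        calc Real.exp (-s) * (y ^ N - s ^ N) ≤ Real.exp (-s) * y ^ N := by
              apply mul_le_mul_of_nonneg_left _ h11.le
              linarith
          _ ≤ Real.exp (-(s ^ 2 / y)) * y ^ N := mul_le_mul_of_nonneg_right h8 h10
          _ = _ := mul_comm _ _
      · have h8 : y ^ N ≤ s ^ N := pow_le_pow_left₀ hy0.le hsy N
        have h9 : Real.exp (-s) * (y ^ N - s ^ N) ≤ 0 :=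
          mul_nonpos_of_nonneg_of_nonpos (Real.exp_pos _).le (by linarith)
        have h10 : 0 ≤ y ^ N * Real.exp (-(s ^ 2 / y)) := by positivity
        linarith
    have h12 : (Real.exp (-s) * (y ^ N - s ^ N) - s ^ (2 * N) / (N.factorial : ℝ)) * Real.exp (-y) ≤
        (y ^ N * T (N + 1) (s ^ 2 / y)) * Real.exp (-y) := by
      apply mul_le_mul_of_nonneg_right _ hE.le
      rw [mul_sub, h6] at h5
      linarith
    refine le_trans (le_of_eq ?_) h12
    simp only [pow_zero, one_mul]
    ring

end Pool.Agent.W528.Apery
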