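import Mathlib

/-!
# Smooth toric Fano manifolds, their cohomology and the coefficients of the J-function

The definitions used in the disproof of the statement on Apery limits.
-/

set_option autoImplicit false

namespace Pool.Agent.W528.Apery

open MvPolynomial Filter Topology

/-- A smooth toric Fano manifold (of complex dimension `d`), given by its fan: the `N` primitive
generators `ray i` of the rays in the lattice `ℤ ^ d` and the set of the maximal cones, a cone being
the set of its rays.  Every ray is used; the rays of a maximal cone are a basis of the lattice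
(smoothness); the maximal cones cover the space (completeness); and for every maximal cone `σ` the
linear function with value `1` on the rays of `σ` is smaller than `1` on all other rays (the
support function of the anticanonical divisor is strictly convex: the anticanonical divisor, the
sum of the torus invariant prime divisors, is ample). -/
structure ToricFano where
  d : ℕ
  N : ℕ
  ray : Fin N → Fin d → ℤ
  cones : Finset (Finset (Fin N))
  used : ∀ i, ∃ σ ∈ cones, i ∈ σ
  smooth : ∀ σ ∈ cones, ∃ e : Fin d → Fin N, Function.Injective e ∧ (∀ i, i ∈ σ ↔ ∃ j, e j = i) ∧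
    IsUnit (Matrix.of fun j => ray (e j)).det
  complete : ∀ x : Fin d → ℝ, ∃ σ ∈ cones, ∃ c : Fin N → ℝ, (∀ i, 0 ≤ c i) ∧
    (∀ i, i ∉ σ → c i = 0) ∧ ∀ j, x j = ∑ i, c i * ray i j
  fano : ∀ σ ∈ cones, ∃ u : Fin d → ℤ, (∀ i ∈ σ, ∑ j, u j * ray i j = 1) ∧
    ∀ i, i ∉ σ → ∑ j, u j * ray i j < 1

namespace ToricFano

variable (F : ToricFano)

/-- The relations between the classes of the torus invariant prime divisors in the cohomology
ring: the Stanley-Reisner relations (the product of divisors whose rays do not lie in a common
cone vanishes) and the linear relations (the divisors of the characters of the torus). -/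
noncomputable def relations : Ideal (MvPolynomial (Fin F.N) ℂ) :=
  Ideal.span ({f | ∃ S : Finset (Fin F.N), (∀ σ ∈ F.cones, ¬ S ⊆ σ) ∧ f = ∏ i ∈ S, X i} ∪
    {f | ∃ j : Fin F.d, f = ∑ i, C ((F.ray i j : ℤ) : ℂ) * X i})

/-- The cohomology ring with complex coefficients (Jurkiewicz, Danilov). -/
abbrev Coh : Type := MvPolynomial (Fin F.N) ℂ ⧸ F.relations

/-- The class of the torus invariant prime divisor of the ray `i`. -/
noncomputable def div (i : Fin F.N) : F.Coh := Ideal.Quotient.mk _ (X i)

/-- The first Chern class: the sum of all torus invariant prime divisors. -/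
noncomputable def c₁ : F.Coh := ∑ i, F.div i

lemma not_forall_not_empty_subset : ¬ ∀ σ ∈ F.cones, ¬ (∅ : Finset (Fin F.N)) ⊆ σ := by
  intro h
  obtain ⟨σ, hσ, -⟩ := F.complete 0
  exact h σ hσ (Finset.empty_subset _)

lemma eval_relations (a : MvPolynomial (Fin F.N) ℂ) (ha : a ∈ F.relations) :
    aeval (R := ℂ) (fun _ : Fin F.N => (0 : ℂ)) a = 0 := by
  have h : F.relations ≤ RingHom.ker (aeval (R := ℂ) (fun _ : Fin F.N => (0 : ℂ))) := by
    refine Ideal.span_le.2 ?_
    rintro f (⟨S, hS, rfl⟩ | ⟨j, rfl⟩)
    · have hne : S.Nonempty := by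
        rw [Finset.nonempty_iff_ne_empty]
        rintro rfl
        exact F.not_forall_not_empty_subset hS
      obtain ⟨i, hi⟩ := hne
      rw [SetLike.mem_coe, RingHom.mem_ker, map_prod]
      exact Finset.prod_eq_zero hi (aeval_X _ _)
    · rw [SetLike.mem_coe, RingHom.mem_ker]
      simp
  exact RingHom.mem_ker.1 (h ha)

/-- The evaluation at the class of a point in degree `0` homology: the component in degree `0`,
that is, the algebra homomorphism to `ℂ` which maps all divisors to `0`. -/
noncomputable def pt : F.Coh →ₐ[ℂ] ℂ :=
  Ideal.Quotient.liftₐ F.relations (aeval (R := ℂ) (fun _ : Fin F.N => (0 : ℂ))) F.eval_relations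

@[simp] lemma pt_div (i : Fin F.N) : F.pt (F.div i) = 0 := by
  change aeval (R := ℂ) (fun _ : Fin F.N => (0 : ℂ)) (X i : MvPolynomial (Fin F.N) ℂ) = 0
  exact aeval_X _ _

/-- The quotient of the product of all `D + m`, `m ≤ 0`, by the product of all `D + m`, `m ≤ k`,
where `D` is a nilpotent class: this is the inverse of `(D + 1) ⋯ (D + k)` if `k ≥ 0`, and
`D (D - 1) ⋯ (D + k + 1)` if `k < 0`. -/
noncomputable def factor (D : F.Coh) (k : ℤ) : F.Coh :=
  if 0 ≤ k then Ring.inverse (∏ m ∈ Finset.Icc 1 k, (D + (m : F.Coh)))
  else ∏ m ∈ Finset.Icc (k + 1) 0, (D + (m : F.Coh))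

/-- The classes `k` of curves with `c₁ · k = n` in the Mori cone; `k i` is the intersection number
of `k` with the divisor of the ray `i`, so that `∑ i, k i * ray i = 0`, and the divisors with
negative intersection number have rays in a common cone.  (For all other `k` the product of the
`factor (div i) (k i)` vanishes by the Stanley-Reisner relations.) -/
def curves (n : ℕ) : Set (Fin F.N → ℤ) :=
  {k | (∀ j, ∑ i, k i * F.ray i j = 0) ∧ (∃ σ ∈ F.cones, ∀ i, k i < 0 → i ∈ σ) ∧ ∑ i, k i = n}

/-- The coefficient `J n` of `t ^ n` in `exp (- c₁ log t) J_F(t)`, by the theorem of Givental. -/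
noncomputable def J (n : ℕ) : F.Coh := ∑ᶠ k ∈ F.curves n, ∏ i, F.factor (F.div i) (k i)

/-- The Gamma class, the product of the `Γ(1 + D)` over the torus invariant prime divisors `D`
(the tangent bundle plus a trivial bundle is the sum of the line bundles of these divisors);
`Γ(1 + D)` is given by the Taylor series at `1`. -/
noncomputable def gammaClass : F.Coh :=
  ∏ i, ∑ᶠ m : ℕ, (iteratedDeriv m Complex.Gamma 1 / (m.factorial : ℂ)) • F.div i ^ m

/-- `r` is the Fano index, the largest positive integer such that the class of the anticanonical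
divisor (all coefficients equal to `1`) is `r` times a class `v`, modulo the divisors
`(⟨m, ray i⟩)` of the characters `m` of the torus. -/
def IsIndex (r : ℕ) : Prop :=
  IsGreatest {r : ℕ | 0 < r ∧ ∃ (v : Fin F.N → ℤ) (m : Fin F.d → ℤ),
    ∀ i, (r : ℤ) * v i + ∑ j, m j * F.ray i j = 1} r

end ToricFano

end Pool.Agent.W528.Apery
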