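import Pool.Agent.W528.Apery.Defs

/-!
# The part of the cohomology in degrees zero and two: homomorphisms to the dual numbers
-/

set_option autoImplicit false

namespace Pool.Agent.W528.Apery

open MvPolynomial Filter Topology

namespace ToricFano

variable (F : ToricFano)

lemma eval_dual (w : Fin F.N → ℂ) (hw : ∀ j, ∑ i, w i * ((F.ray i j : ℤ) : ℂ) = 0)
    (a : MvPolynomial (Fin F.N) ℂ) (ha : a ∈ F.relations) :
    aeval (R := ℂ) (fun i : Fin F.N => (TrivSqZeroExt.inr (w i) : DualNumber ℂ)) a = 0 := by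
  have h : F.relations ≤ RingHom.ker
      (aeval (R := ℂ) (fun i : Fin F.N => (TrivSqZeroExt.inr (w i) : DualNumber ℂ))) := by
    refine Ideal.span_le.2 ?_
    rintro f (⟨S, hS, rfl⟩ | ⟨j, rfl⟩)
    · have hne : S.Nonempty := by
        rw [Finset.nonempty_iff_ne_empty]
        rintro rfl
        exact F.not_forall_not_empty_subset hS
      obtain ⟨i, hi⟩ := hne
      have hne2 : (S.erase i).Nonempty := by
        rw [Finset.nonempty_iff_ne_empty]
        intro h0
        obtain ⟨σ, hσ, hiσ⟩ := F.used i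
        apply hS σ hσ
        intro x hx
        by_cases hxi : x = i
        · rw [hxi]; exact hiσ
        · have : x ∈ S.erase i := Finset.mem_erase.2 ⟨hxi, hx⟩
          rw [h0] at this
          exact absurd this (Finset.notMem_empty _)
      obtain ⟨j, hj⟩ := hne2
      rw [SetLike.mem_coe, RingHom.mem_ker, map_prod, ← Finset.mul_prod_erase _ _ hi,
        ← Finset.mul_prod_erase _ _ hj, aeval_X, aeval_X, ← mul_assoc, TrivSqZeroExt.inr_mul_inr,
        zero_mul]
    · rw [SetLike.mem_coe, RingHom.mem_ker, map_sum]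
      simp only [map_mul, aeval_C, aeval_X]
      have h1 : ∀ i, (algebraMap ℂ (DualNumber ℂ)) ((F.ray i j : ℤ) : ℂ) *
          (TrivSqZeroExt.inr (w i) : DualNumber ℂ) =
          TrivSqZeroExt.inr (w i * ((F.ray i j : ℤ) : ℂ)) := by
        intro i
        rw [TrivSqZeroExt.algebraMap_eq_inl, TrivSqZeroExt.inl_mul_inr, smul_eq_mul, mul_comm]
      rw [Finset.sum_congr rfl fun i _ => h1 i, ← TrivSqZeroExt.inr_sum, hw j,
        TrivSqZeroExt.inr_zero]
  exact RingHom.mem_ker.1 (h ha)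

/-- The homomorphism to the dual numbers given by a class of curves with complex coefficients. -/
noncomputable def dual (w : Fin F.N → ℂ) (hw : ∀ j, ∑ i, w i * ((F.ray i j : ℤ) : ℂ) = 0) :
    F.Coh →ₐ[ℂ] DualNumber ℂ :=
  Ideal.Quotient.liftₐ F.relations
    (aeval (R := ℂ) (fun i : Fin F.N => (TrivSqZeroExt.inr (w i) : DualNumber ℂ)))
    (F.eval_dual w hw)

variable (w : Fin F.N → ℂ) (hw : ∀ j, ∑ i, w i * ((F.ray i j : ℤ) : ℂ) = 0)

@[simp] lemma dual_div (i : Fin F.N) : F.dual w hw (F.div i) = TrivSqZeroExt.inr (w i) := by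
  change aeval (R := ℂ) (fun i : Fin F.N => (TrivSqZeroExt.inr (w i) : DualNumber ℂ))
    (X i : MvPolynomial (Fin F.N) ℂ) = _
  exact aeval_X _ _

lemma fst_dual (x : F.Coh) : (F.dual w hw x).fst = F.pt x := by
  have h : ((TrivSqZeroExt.fstHom ℂ ℂ ℂ).comp (F.dual w hw)) = F.pt := by
    apply Ideal.Quotient.algHom_ext
    apply MvPolynomial.algHom_ext
    intro i
    change (F.dual w hw (F.div i)).fst = F.pt (F.div i)
    rw [dual_div, pt_div]
    simp
  rw [← h]
  rfl

/-- The functional on the cohomology given by a class of curves with complex coefficients. -/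
noncomputable def curveFunctional : F.Coh →ₗ[ℂ] ℂ :=
  (TrivSqZeroExt.sndHom ℂ ℂ).comp (F.dual w hw).toLinearMap

lemma curveFunctional_apply (x : F.Coh) : F.curveFunctional w hw x = (F.dual w hw x).snd := rfl

lemma curveFunctional_c₁_mul (h0 : ∑ i, w i = 0) (x : F.Coh) :
    F.curveFunctional w hw (F.c₁ * x) = 0 := by
  rw [curveFunctional_apply, map_mul]
  have h : F.dual w hw F.c₁ = 0 := by
    unfold c₁
    rw [map_sum]
    simp only [dual_div]
    rw [← TrivSqZeroExt.inr_sum, h0, TrivSqZeroExt.inr_zero]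
  rw [h, zero_mul, TrivSqZeroExt.snd_zero]

lemma linear_relation (j : Fin F.d) : ∑ i, ((F.ray i j : ℤ) : F.Coh) * F.div i = 0 := by
  have h : Ideal.Quotient.mk F.relations (∑ i, C ((F.ray i j : ℤ) : ℂ) * X i) = 0 := by
    rw [Ideal.Quotient.eq_zero_iff_mem]
    exact Ideal.subset_span (Or.inr ⟨j, rfl⟩)
  rw [← h, map_sum]
  refine Finset.sum_congr rfl fun i _ => ?_
  rw [map_mul]
  congr 1

lemma stanleyReisner_relation (S : Finset (Fin F.N)) (hS : ∀ σ ∈ F.cones, ¬ S ⊆ σ) :
    ∏ i ∈ S, F.div i = 0 := by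
  have h : Ideal.Quotient.mk F.relations (∏ i ∈ S, X i) = 0 := by
    rw [Ideal.Quotient.eq_zero_iff_mem]
    exact Ideal.subset_span (Or.inl ⟨S, hS, rfl⟩)
  rw [← h, map_prod]
  rfl

/-- The product of the `D + j`, `1 ≤ j ≤ k`. -/
lemma prod_Icc_one {R : Type*} [CommRing R] (D : R) (k : ℕ) :
    ∏ m ∈ Finset.Icc (1 : ℤ) k, (D + (m : R)) = ∏ j ∈ Finset.range k, (D + ((j : R) + 1)) := by
  induction k with
  | zero => simp
  | succ k ih =>
    rw [Finset.prod_range_succ, ← ih]
    have h : Finset.Icc (1 : ℤ) ((k + 1 : ℕ) : ℤ) = insert ((k + 1 : ℕ) : ℤ) (Finset.Icc (1 : ℤ) k) := by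
      ext x
      simp only [Finset.mem_Icc, Finset.mem_insert]
      push_cast
      omega
    rw [h, Finset.prod_insert (by simp), mul_comm]
    push_cast
    ring

/-- The product of the `D - j`, `0 ≤ j ≤ k`. -/
lemma prod_Icc_neg {R : Type*} [CommRing R] (D : R) (k : ℕ) :
    ∏ m ∈ Finset.Icc (-(k : ℤ)) 0, (D + (m : R)) =
      D * ∏ j ∈ Finset.range k, (D - ((j : R) + 1)) := by
  induction k with
  | zero => simp
  | succ k ih =>
    rw [Finset.prod_range_succ, ← mul_assoc, ← ih]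
    have h : Finset.Icc (-((k + 1 : ℕ) : ℤ)) 0 = insert (-((k + 1 : ℕ) : ℤ)) (Finset.Icc (-(k : ℤ)) 0) := by
      ext x
      simp only [Finset.mem_Icc, Finset.mem_insert]
      push_cast
      omega
    rw [h, Finset.prod_insert (by simp), mul_comm]
    push_cast
    ring

lemma dual_add_nat (i : Fin F.N) (j : ℕ) :
    F.dual w hw (F.div i + ((j : F.Coh) + 1)) =
      TrivSqZeroExt.inl ((j : ℂ) + 1) + TrivSqZeroExt.inr (w i) := by
  rw [map_add, dual_div, map_add, map_natCast, map_one, add_comm]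
  congr 1
  rw [TrivSqZeroExt.inl_add, TrivSqZeroExt.inl_one, TrivSqZeroExt.inl_natCast]

lemma dual_sub_nat (i : Fin F.N) (j : ℕ) :
    F.dual w hw (F.div i - ((j : F.Coh) + 1)) =
      TrivSqZeroExt.inl (-((j : ℂ) + 1)) + TrivSqZeroExt.inr (w i) := by
  rw [map_sub, dual_div, map_add, map_natCast, map_one, sub_eq_add_neg, add_comm]
  congr 1
  rw [TrivSqZeroExt.inl_neg, TrivSqZeroExt.inl_add, TrivSqZeroExt.inl_one,
    TrivSqZeroExt.inl_natCast]

lemma dual_prod_pos (i : Fin F.N) (k : ℕ) :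
    F.dual w hw (∏ j ∈ Finset.range k, (F.div i + ((j : F.Coh) + 1))) =
      TrivSqZeroExt.inl (k.factorial : ℂ) +
        TrivSqZeroExt.inr ((k.factorial : ℂ) * ((harmonic k : ℚ) : ℂ) * w i) := by
  induction k with
  | zero => simp
  | succ k ih =>
    rw [Finset.prod_range_succ, map_mul, ih, dual_add_nat, harmonic_succ, Nat.factorial_succ]
    have hk : (k : ℂ) + 1 ≠ 0 := by
      have := Nat.cast_add_one_ne_zero (R := ℂ) k
      exact this
    ext
    · simp
      ring
    · simp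
      field_simp
      ring

lemma fst_dual_prod_neg (i : Fin F.N) (k : ℕ) :
    (F.dual w hw (∏ j ∈ Finset.range k, (F.div i - ((j : F.Coh) + 1)))).fst =
      (-1) ^ k * (k.factorial : ℂ) := by
  induction k with
  | zero => simp
  | succ k ih =>
    rw [Finset.prod_range_succ, map_mul, TrivSqZeroExt.fst_mul, ih, dual_sub_nat,
      Nat.factorial_succ]
    simp
    ring

lemma isUnit_prod (i : Fin F.N) (hnil : IsNilpotent (F.div i)) (k : ℕ) :
    IsUnit (∏ j ∈ Finset.range k, (F.div i + ((j : F.Coh) + 1))) := by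
  rw [IsUnit.prod_iff]
  intro j _
  rw [add_comm (F.div i)]
  apply hnil.isUnit_add_left_of_commute
  · have h : (algebraMap ℂ F.Coh) ((j : ℂ) + 1) = (j : F.Coh) + 1 := by
      rw [map_add, map_natCast, map_one]
    rw [← h]
    exact (IsUnit.mk0 _ (Nat.cast_add_one_ne_zero (R := ℂ) j)).map _
  · exact Commute.all _ _

/-- The image of `factor (div i) k`, `k ≥ 0`, in the dual numbers. -/
lemma dual_factor_nonneg (i : Fin F.N) (hnil : IsNilpotent (F.div i)) (k : ℕ) :
    F.dual w hw (F.factor (F.div i) k) =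
      TrivSqZeroExt.inl (1 / (k.factorial : ℂ)) +
        TrivSqZeroExt.inr (-(((harmonic k : ℚ) : ℂ) * w i) / (k.factorial : ℂ)) := by
  unfold factor
  rw [if_pos (Int.natCast_nonneg k), prod_Icc_one]
  have hu := F.isUnit_prod i hnil k
  have h1 := congrArg (F.dual w hw) (Ring.mul_inverse_cancel _ hu)
  rw [map_mul, map_one, dual_prod_pos] at h1
  set y := F.dual w hw (Ring.inverse (∏ j ∈ Finset.range k, (F.div i + ((j : F.Coh) + 1)))) with hy
  have hk : (k.factorial : ℂ) ≠ 0 := by exact_mod_cast k.factorial_ne_zero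
  have h2 := congrArg TrivSqZeroExt.fst h1
  have h3 := congrArg TrivSqZeroExt.snd h1
  simp only [TrivSqZeroExt.fst_mul, TrivSqZeroExt.fst_add, TrivSqZeroExt.fst_inl,
    TrivSqZeroExt.fst_inr, add_zero, TrivSqZeroExt.fst_one] at h2
  simp only [TrivSqZeroExt.snd_mul, TrivSqZeroExt.fst_add, TrivSqZeroExt.fst_inl,
    TrivSqZeroExt.fst_inr, add_zero, TrivSqZeroExt.snd_add, TrivSqZeroExt.snd_inl,
    TrivSqZeroExt.snd_inr, zero_add, TrivSqZeroExt.snd_one, smul_eq_mul,
    MulOpposite.smul_eq_mul_unop, MulOpposite.unop_op] at h3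
  have h4 : y.fst = 1 / (k.factorial : ℂ) := by
    rw [eq_div_iff hk, mul_comm]
    exact h2
  ext
  · simp [h4]
  · simp only [TrivSqZeroExt.snd_add, TrivSqZeroExt.snd_inl, TrivSqZeroExt.snd_inr, zero_add]
    rw [h4] at h3
    field_simp at h3 ⊢
    linear_combination h3

/-- The image of `factor (div i) (- (k + 1))`, `k ≥ 0`, in the dual numbers. -/
lemma dual_factor_neg (i : Fin F.N) (k : ℕ) :
    F.dual w hw (F.factor (F.div i) (-((k : ℤ) + 1))) =
      TrivSqZeroExt.inr ((-1) ^ k * (k.factorial : ℂ) * w i) := by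
  unfold factor
  rw [if_neg (by omega)]
  have h : -((k : ℤ) + 1) + 1 = -(k : ℤ) := by ring
  rw [h, prod_Icc_neg, map_mul, dual_div]
  ext
  · simp
  · simp only [TrivSqZeroExt.snd_mul, TrivSqZeroExt.fst_inr, zero_smul, TrivSqZeroExt.snd_inr,
      zero_add, fst_dual_prod_neg, MulOpposite.smul_eq_mul_unop, MulOpposite.unop_op]
    ring

end ToricFano

end Pool.Agent.W528.Apery
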