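import Pool.Agent.W528.Apery.Dual

/-!
# The toric Fano fourfold `P(O + O(3))` over `P³`
-/

set_option autoImplicit false

namespace Pool.Agent.W528.Apery

open MvPolynomial Filter Topology

/-- The rays of the fan of `P(O + O(3))` over `P³`. -/
def rays : Fin 6 → Fin 4 → ℤ :=
  ![![1, 0, 0, 0], ![0, 1, 0, 0], ![0, 0, 1, 0], ![-1, -1, -1, 3], ![0, 0, 0, 1], ![0, 0, 0, -1]]

/-- The maximal cones of the fan of `P(O + O(3))` over `P³`: three of the first four rays and one
of the last two. -/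
def maxCones : Finset (Finset (Fin 6)) :=
  {{0, 1, 2, 4}, {0, 1, 2, 5}, {0, 1, 3, 4}, {0, 1, 3, 5}, {0, 2, 3, 4}, {0, 2, 3, 5},
    {1, 2, 3, 4}, {1, 2, 3, 5}}

lemma smooth_aux (σ : Finset (Fin 6)) (e : Fin 4 → Fin 6) (he : Function.Injective e)
    (h : ∀ i, i ∈ σ ↔ ∃ j, e j = i) (hd : (Matrix.of fun j => rays (e j)).det = 1 ∨
      (Matrix.of fun j => rays (e j)).det = -1) :
    ∃ e : Fin 4 → Fin 6, Function.Injective e ∧ (∀ i, i ∈ σ ↔ ∃ j, e j = i) ∧
      IsUnit (Matrix.of fun j => rays (e j)).det := by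
  refine ⟨e, he, h, ?_⟩
  rcases hd with hd | hd <;> rw [hd] <;> decide

lemma mem_aux : ∀ (i₀ : Fin 4) (l : Fin 2),
    (Finset.univ.erase (Fin.castLE (by norm_num) i₀ : Fin 6)).erase
      (if l = 0 then 5 else 4) ∈ maxCones := by
  decide

/-- The cones cover the space. -/
lemma complete_aux (x : Fin 4 → ℝ) (b : Fin 4 → ℝ) (hb : ∀ i, 0 ≤ b i) (i₀ : Fin 4)
    (h0 : b i₀ = 0) (hx0 : x 0 = b 0 - b 3) (hx1 : x 1 = b 1 - b 3) (hx2 : x 2 = b 2 - b 3) :
    ∃ σ ∈ maxCones, ∃ c : Fin 6 → ℝ, (∀ i, 0 ≤ c i) ∧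
      (∀ i, i ∉ σ → c i = 0) ∧ ∀ j, x j = ∑ i, c i * rays i j := by
  have key : ∀ (l : Fin 2), (l = 0 → 0 ≤ x 3 - 3 * b 3) → (l = 1 → x 3 - 3 * b 3 ≤ 0) →
      ∃ σ ∈ maxCones, ∃ c : Fin 6 → ℝ, (∀ i, 0 ≤ c i) ∧
      (∀ i, i ∉ σ → c i = 0) ∧ ∀ j, x j = ∑ i, c i * rays i j := by
    intro l hl0 hl1
    refine ⟨(Finset.univ.erase (Fin.castLE (by norm_num) i₀ : Fin 6)).erase
      (if l = 0 then 5 else 4), ?_,
      ![b 0, b 1, b 2, b 3, if l = 0 then x 3 - 3 * b 3 else 0,
        if l = 0 then 0 else -(x 3 - 3 * b 3)], ?_, ?_, ?_⟩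
    · exact mem_aux i₀ l
    · intro i
      fin_cases l
      · have := hl0 rfl
        fin_cases i <;> simp [hb]
        linarith
      · have := hl1 rfl
        fin_cases i <;> simp [hb]
        linarith
    · intro i hi
      fin_cases l <;> fin_cases i₀ <;> fin_cases i <;> simp_all
    · intro j
      fin_cases l
      · fin_cases j <;> simp [Fin.sum_univ_succ, rays] <;> linarith
      · fin_cases j <;> simp [Fin.sum_univ_succ, rays] <;> linarith
  rcases le_total 0 (x 3 - 3 * b 3) with h | h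
  · exact key 0 (fun _ => h) (fun h1 => absurd h1 (by decide))
  · exact key 1 (fun h1 => absurd h1 (by decide)) (fun _ => h)

lemma complete_rays (x : Fin 4 → ℝ) : ∃ σ ∈ maxCones, ∃ c : Fin 6 → ℝ, (∀ i, 0 ≤ c i) ∧
      (∀ i, i ∉ σ → c i = 0) ∧ ∀ j, x j = ∑ i, c i * rays i j := by
  by_cases h : 0 ≤ x 0 ∧ 0 ≤ x 1 ∧ 0 ≤ x 2
  · obtain ⟨h0, h1, h2⟩ := h
    refine complete_aux x ![x 0, x 1, x 2, 0] ?_ 3 rfl ?_ ?_ ?_
    · intro i
      fin_cases i <;> simp [h0, h1, h2]
    · simp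
    · simp
    · simp
  · -- the smallest of the first three coordinates is negative
    have hmin : (x 0 ≤ x 1 ∧ x 0 ≤ x 2 ∧ x 0 ≤ 0) ∨ (x 1 ≤ x 0 ∧ x 1 ≤ x 2 ∧ x 1 ≤ 0) ∨
        (x 2 ≤ x 0 ∧ x 2 ≤ x 1 ∧ x 2 ≤ 0) := by
      by_contra hcon
      push Not at hcon
      obtain ⟨a1, a2, a3⟩ := hcon
      apply h
      rcases le_total (x 0) (x 1) with h01 | h01 <;> rcases le_total (x 0) (x 2) with h02 | h02 <;>
        rcases le_total (x 1) (x 2) with h12 | h12
      all_goals first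
        | (have := a1 (by linarith) (by linarith); exact ⟨by linarith, by linarith, by linarith⟩)
        | (have := a2 (by linarith) (by linarith); exact ⟨by linarith, by linarith, by linarith⟩)
        | (have := a3 (by linarith) (by linarith); exact ⟨by linarith, by linarith, by linarith⟩)
    rcases hmin with ⟨h1, h2, h3⟩ | ⟨h1, h2, h3⟩ | ⟨h1, h2, h3⟩
    · refine complete_aux x ![0, x 1 - x 0, x 2 - x 0, - x 0] ?_ 0 rfl ?_ ?_ ?_
      · intro i
        fin_cases i <;> simp [h1, h2, h3]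
      · simp
      · simp
      · simp
    · refine complete_aux x ![x 0 - x 1, 0, x 2 - x 1, - x 1] ?_ 1 rfl ?_ ?_ ?_
      · intro i
        fin_cases i <;> simp [h1, h2, h3]
      · simp
      · simp
      · simp
    · refine complete_aux x ![x 0 - x 2, x 1 - x 2, 0, - x 2] ?_ 2 rfl ?_ ?_ ?_
      · intro i
        fin_cases i <;> simp [h1, h2, h3]
      · simp
      · simp
      · simp

/-- The fourfold `P(O + O(3))` over `P³`. -/
def F₃ : ToricFano where
  d := 4
  N := 6
  ray := rays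
  cones := maxCones
  used := by decide
  smooth := by
    intro σ hσ
    simp only [maxCones, Finset.mem_insert, Finset.mem_singleton] at hσ
    rcases hσ with rfl | rfl | rfl | rfl | rfl | rfl | rfl | rfl
    · exact smooth_aux _ ![0, 1, 2, 4] (by decide) (by decide) (by decide)
    · exact smooth_aux _ ![0, 1, 2, 5] (by decide) (by decide) (by decide)
    · exact smooth_aux _ ![0, 1, 3, 4] (by decide) (by decide) (by decide)
    · exact smooth_aux _ ![0, 1, 3, 5] (by decide) (by decide) (by decide)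
    · exact smooth_aux _ ![0, 2, 3, 4] (by decide) (by decide) (by decide)
    · exact smooth_aux _ ![0, 2, 3, 5] (by decide) (by decide) (by decide)
    · exact smooth_aux _ ![1, 2, 3, 4] (by decide) (by decide) (by decide)
    · exact smooth_aux _ ![1, 2, 3, 5] (by decide) (by decide) (by decide)
  complete := complete_rays
  fano := by
    intro σ hσ
    simp only [maxCones, Finset.mem_insert, Finset.mem_singleton] at hσ
    rcases hσ with rfl | rfl | rfl | rfl | rfl | rfl | rfl | rfl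
    · exact ⟨![1, 1, 1, 1], by decide, by decide⟩
    · exact ⟨![1, 1, 1, -1], by decide, by decide⟩
    · exact ⟨![1, 1, 0, 1], by decide, by decide⟩
    · exact ⟨![1, 1, -6, -1], by decide, by decide⟩
    · exact ⟨![1, 0, 1, 1], by decide, by decide⟩
    · exact ⟨![1, -6, 1, -1], by decide, by decide⟩
    · exact ⟨![0, 1, 1, 1], by decide, by decide⟩
    · exact ⟨![-6, 1, 1, -1], by decide, by decide⟩

end Pool.Agent.W528.Apery
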