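import Pool.Agent.W528.Apery.JFormula
import Pool.Agent.W528.Apery.Bessel

/-!
# The growth of the coefficients
-/

set_option autoImplicit false

namespace Pool.Agent.W528.Apery.F₃

open Filter Topology

lemma hasSum_exp (x : ℝ) : HasSum (fun n : ℕ => x ^ n / (n.factorial : ℝ)) (Real.exp x) := by
  rw [Real.exp_eq_exp_ℝ]
  exact NormedSpace.expSeries_div_hasSum_exp x

/-! ### Factorials -/

lemma fact_add_le (i j : ℕ) : (i + j).factorial ≤ 2 ^ (i + j) * (i.factorial * j.factorial) := by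
  have h := Nat.add_choose_mul_factorial_mul_factorial i j
  have h2 : (i + j).choose j ≤ 2 ^ (i + j) := Nat.choose_le_two_pow _ _
  rw [← h, mul_assoc]
  exact Nat.mul_le_mul_right _ h2

lemma fact_four (a : ℕ) : (4 * a).factorial ≤ 2 ^ (8 * a) * a.factorial ^ 4 := by
  have h1 := fact_add_le a a
  have h2 := fact_add_le (2 * a) (2 * a)
  have h3 : a + a = 2 * a := by ring
  have h4 : 2 * a + 2 * a = 4 * a := by ring
  rw [h3] at h1
  rw [h4] at h2
  calc (4 * a).factorial ≤ 2 ^ (4 * a) * ((2 * a).factorial * (2 * a).factorial) := h2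
    _ ≤ 2 ^ (4 * a) * ((2 ^ (2 * a) * (a.factorial * a.factorial)) *
        (2 ^ (2 * a) * (a.factorial * a.factorial))) := by gcongr
    _ = 2 ^ (8 * a) * a.factorial ^ 4 := by ring

lemma fact_bound (a b : ℕ) (h : 3 * a ≤ b) :
    (a + 2 * b).factorial ≤ 8 ^ (a + 2 * b) *
      (a.factorial ^ 4 * b.factorial * (b - 3 * a).factorial) := by
  obtain ⟨c, rfl⟩ := Nat.exists_eq_add_of_le h
  have h0 : 3 * a + c - 3 * a = c := by omega
  rw [h0]
  have h1 := fact_four a
  have h2 := fact_add_le (3 * a + c) c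
  have h3 := fact_add_le (4 * a) (3 * a + c + c)
  have h4 : 4 * a + (3 * a + c + c) = a + 2 * (3 * a + c) := by ring
  rw [h4] at h3
  calc (a + 2 * (3 * a + c)).factorial
      ≤ 2 ^ (a + 2 * (3 * a + c)) * ((4 * a).factorial * (3 * a + c + c).factorial) := h3
    _ ≤ 2 ^ (a + 2 * (3 * a + c)) * ((2 ^ (8 * a) * a.factorial ^ 4) *
        (2 ^ (3 * a + c + c) * ((3 * a + c).factorial * c.factorial))) := by gcongr
    _ = 2 ^ (18 * a + 4 * c) * (a.factorial ^ 4 * (3 * a + c).factorial * c.factorial) := by ring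
    _ ≤ 2 ^ (3 * (a + 2 * (3 * a + c))) *
        (a.factorial ^ 4 * (3 * a + c).factorial * c.factorial) := by
        apply Nat.mul_le_mul_right
        apply Nat.pow_le_pow_right (by norm_num)
        omega
    _ = _ := by rw [pow_mul]; norm_num

lemma fact_three_upper (a : ℕ) : (3 * a).factorial ≤ 27 ^ a * a.factorial ^ 3 := by
  induction a with
  | zero => simp
  | succ a ih =>
    have h : 3 * (a + 1) = 3 * a + 1 + 1 + 1 := by ring
    rw [h, Nat.factorial_succ, Nat.factorial_succ, Nat.factorial_succ, Nat.factorial_succ a]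
    have h2 : (3 * a + 1 + 1 + 1) * ((3 * a + 1 + 1) * (3 * a + 1)) ≤ 27 * (a + 1) ^ 3 := by
      nlinarith [sq_nonneg a]
    calc (3 * a + 1 + 1 + 1) * ((3 * a + 1 + 1) * ((3 * a + 1) * (3 * a).factorial))
        = ((3 * a + 1 + 1 + 1) * ((3 * a + 1 + 1) * (3 * a + 1))) * (3 * a).factorial := by ring
      _ ≤ (27 * (a + 1) ^ 3) * (27 ^ a * a.factorial ^ 3) := Nat.mul_le_mul h2 ih
      _ = _ := by ring

lemma fact_three_lower (c : ℕ) :
    18 ^ (c + 1) * (c + 1).factorial ^ 3 ≤ 40 * (3 * c + 2).factorial := by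
  rcases Nat.lt_or_ge c 4 with hc | hc
  · interval_cases c <;> decide
  · induction c, hc using Nat.le_induction with
    | base => decide
    | succ c hc ih =>
      have e1 : (3 * (c + 1) + 2).factorial =
          ((3 * c + 5) * ((3 * c + 4) * (3 * c + 3))) * (3 * c + 2).factorial := by
        have h : 3 * (c + 1) + 2 = (3 * c + 4) + 1 := by ring
        have h' : 3 * c + 4 = (3 * c + 3) + 1 := by ring
        have h'' : 3 * c + 3 = (3 * c + 2) + 1 := by ring
        rw [h, Nat.factorial_succ (3 * c + 4), h', Nat.factorial_succ (3 * c + 3), h'',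
          Nat.factorial_succ (3 * c + 2)]
        ring
      have e2 : (c + 1 + 1).factorial = (c + 2) * (c + 1).factorial := Nat.factorial_succ (c + 1)
      rw [e1, e2]
      have h2 : 18 * (c + 2) ^ 3 ≤ (3 * c + 5) * ((3 * c + 4) * (3 * c + 3)) := by
        obtain ⟨d, rfl⟩ := Nat.exists_eq_add_of_le hc
        ring_nf
        nlinarith [sq_nonneg d]
      calc 18 ^ (c + 1 + 1) * ((c + 2) * (c + 1).factorial) ^ 3
          = (18 * (c + 2) ^ 3) * (18 ^ (c + 1) * (c + 1).factorial ^ 3) := by ring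
        _ ≤ ((3 * c + 5) * ((3 * c + 4) * (3 * c + 3))) *
            (40 * (3 * c + 2).factorial) := Nat.mul_le_mul h2 ih
        _ = _ := by ring

/-! ### The coefficients in degree zero and the first part in degree two -/

lemma g_nonneg (a b : ℕ) : 0 ≤ g a b := by
  unfold g
  split_ifs
  · positivity
  · exact le_rfl

lemma g_le (a b : ℕ) : g a b ≤ 8 ^ (a + 2 * b) / ((a + 2 * b).factorial : ℝ) := by
  unfold g
  split_ifs with h
  · rw [div_le_div_iff₀ (by positivity) (by positivity), one_mul]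
    exact_mod_cast fact_bound a b h
  · positivity

lemma harmonic_le (k : ℕ) : ((harmonic k : ℚ) : ℝ) ≤ k := by
  induction k with
  | zero => simp
  | succ k ih =>
    rw [harmonic_succ]
    push_cast
    have : ((k : ℝ) + 1)⁻¹ ≤ 1 := by
      apply inv_le_one_of_one_le₀
      have : (0 : ℝ) ≤ k := Nat.cast_nonneg k
      linarith
    linarith

lemma harmonic_nonneg' (k : ℕ) : 0 ≤ ((harmonic k : ℚ) : ℝ) := by
  have : 0 ≤ harmonic k := by
    unfold harmonic
    positivity
  exact_mod_cast this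

lemma abs_c1_le (a b : ℕ) : |c1 a b| ≤ 16 * (a + 2 * b : ℕ) * g a b := by
  unfold c1 g
  split_ifs with h
  · rw [abs_div, abs_of_pos (show (0 : ℝ) < (a.factorial : ℝ) ^ 4 * b.factorial *
      (b - 3 * a).factorial by positivity), mul_one_div]
    apply div_le_div_of_nonneg_right _ (by positivity)
    have h1 := harmonic_le a
    have h2 := harmonic_le b
    have h3 := harmonic_le (b - 3 * a)
    have h4 := harmonic_nonneg' a
    have h5 := harmonic_nonneg' b
    have h6 := harmonic_nonneg' (b - 3 * a)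
    have h7 : ((b - 3 * a : ℕ) : ℝ) ≤ b := by exact_mod_cast Nat.sub_le _ _
    have h8 : (0 : ℝ) ≤ a := Nat.cast_nonneg a
    have h9 : (0 : ℝ) ≤ b := Nat.cast_nonneg b
    push_cast
    rw [abs_le]
    constructor <;> linarith
  · simp

/-- The coefficient of `t ^ n` in degree zero. -/
noncomputable def G (n : ℕ) : ℝ := ∑ b ∈ Finset.range (n / 2 + 1), g (n - 2 * b) b

/-- The coefficient of `t ^ n` in degree two. -/
noncomputable def A (n : ℕ) : ℝ :=
  ∑ b ∈ Finset.range (n / 2 + 1), (c1 (n - 2 * b) b + c2 (n - 2 * b) b)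

/-- The second part of the coefficient of `t ^ n` in degree two. -/
noncomputable def B (n : ℕ) : ℝ := ∑ b ∈ Finset.range (n / 2 + 1), c2 (n - 2 * b) b

lemma G_nonneg (n : ℕ) : 0 ≤ G n := Finset.sum_nonneg fun _ _ => g_nonneg _ _

lemma G_le (n : ℕ) : G n ≤ (n + 1) * (8 ^ n / (n.factorial : ℝ)) := by
  unfold G
  have h : ∀ b ∈ Finset.range (n / 2 + 1), g (n - 2 * b) b ≤ 8 ^ n / (n.factorial : ℝ) := by
    intro b hb
    rw [Finset.mem_range] at hb
    have h1 := g_le (n - 2 * b) b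
    have h2 : n - 2 * b + 2 * b = n := by omega
    rwa [h2] at h1
  refine (Finset.sum_le_card_nsmul _ _ _ h).trans ?_
  rw [Finset.card_range, nsmul_eq_mul]
  apply mul_le_mul_of_nonneg_right _ (by positivity)
  have : n / 2 + 1 ≤ n + 1 := by omega
  exact_mod_cast this

lemma abs_B_le (n : ℕ) : |B n| ≤ |A n| + 16 * n * G n := by
  have h1 : B n = A n - ∑ b ∈ Finset.range (n / 2 + 1), c1 (n - 2 * b) b := by
    unfold A B
    rw [Finset.sum_add_distrib]
    ring
  have h2 : |∑ b ∈ Finset.range (n / 2 + 1), c1 (n - 2 * b) b| ≤ 16 * n * G n := by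
    refine (Finset.abs_sum_le_sum_abs _ _).trans ?_
    unfold G
    rw [Finset.mul_sum]
    refine Finset.sum_le_sum fun b hb => ?_
    rw [Finset.mem_range] at hb
    have h3 := abs_c1_le (n - 2 * b) b
    have h4 : n - 2 * b + 2 * b = n := by omega
    rwa [h4] at h3
  rw [h1]
  exact (abs_sub _ _).trans (by linarith)

lemma G_pos (n : ℕ) (hn : 7 ≤ n) : 0 < G n := by
  unfold G
  refine Finset.sum_pos' (fun _ _ => g_nonneg _ _) ?_
  refine ⟨n / 2, Finset.mem_range.2 (by omega), ?_⟩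
  unfold g
  rw [if_pos (by omega)]
  positivity

/-- If the coefficients in degree two are bounded by a multiple of those in degree zero, the
second part has small growth. -/
lemma exists_bound (C : ℝ) (hC : ∀ᶠ n in atTop, |A n| ≤ C * G n) :
    ∃ M : ℝ, ∀ n, |B n| ≤ M * (9 ^ n / (n.factorial : ℝ)) := by
  have h1 : ∀ᶠ n : ℕ in atTop, |B n| / (9 ^ n / (n.factorial : ℝ)) ≤
      |C| * (((n : ℝ) ^ 0) * (8 / 9) ^ n) + |C| * ((n : ℝ) ^ 1 * (8 / 9) ^ n) +
      16 * ((n : ℝ) ^ 1 * (8 / 9) ^ n) + 16 * ((n : ℝ) ^ 2 * (8 / 9) ^ n) := by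
    filter_upwards [hC] with n hn
    rw [div_le_iff₀ (by positivity)]
    have h2 := abs_B_le n
    have h3 := G_le n
    have h4 : C * G n ≤ |C| * G n := mul_le_mul_of_nonneg_right (le_abs_self C) (G_nonneg n)
    have h5 : |B n| ≤ (|C| + 16 * n) * G n := by linarith
    refine h5.trans ((mul_le_mul_of_nonneg_left h3 (by positivity)).trans (le_of_eq ?_))
    have h6 : (8 : ℝ) ^ n = (8 / 9) ^ n * 9 ^ n := by rw [← mul_pow]; norm_num
    rw [h6]
    ring
  have ht : ∀ k : ℕ, Tendsto (fun n : ℕ => (n : ℝ) ^ k * (8 / 9) ^ n) atTop (𝓝 0) := fun k =>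
    tendsto_pow_const_mul_const_pow_of_abs_lt_one k (by rw [abs_lt]; constructor <;> norm_num)
  have h2 : Tendsto (fun n : ℕ => |C| * (((n : ℝ) ^ 0) * (8 / 9) ^ n) +
      |C| * ((n : ℝ) ^ 1 * (8 / 9) ^ n) +
      16 * ((n : ℝ) ^ 1 * (8 / 9) ^ n) + 16 * ((n : ℝ) ^ 2 * (8 / 9) ^ n)) atTop
      (𝓝 (|C| * 0 + |C| * 0 + 16 * 0 + 16 * 0)) :=
    ((((ht 0).const_mul _).add ((ht 1).const_mul _)).add ((ht 1).const_mul _)).add
      ((ht 2).const_mul _)
  have h3 : ∀ᶠ n : ℕ in atTop, |B n| / (9 ^ n / (n.factorial : ℝ)) ≤ 1 := by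
    have h4 := h2.eventually (gt_mem_nhds (show |C| * 0 + |C| * 0 + 16 * 0 + 16 * 0 < (1 : ℝ) by
      norm_num))
    filter_upwards [h1, h4] with n h5 h6
    exact h5.trans h6.le
  obtain ⟨N, hN⟩ := eventually_atTop.1 h3
  refine ⟨1 + ∑ n ∈ Finset.range N, |B n| / (9 ^ n / (n.factorial : ℝ)), fun n => ?_⟩
  rw [← div_le_iff₀ (by positivity)]
  rcases Nat.lt_or_ge n N with h | h
  · have h7 : |B n| / (9 ^ n / (n.factorial : ℝ)) ≤
        ∑ n ∈ Finset.range N, |B n| / (9 ^ n / (n.factorial : ℝ)) :=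
      Finset.single_le_sum (f := fun n => |B n| / (9 ^ n / (n.factorial : ℝ)))
        (fun _ _ => by positivity) (Finset.mem_range.2 h)
    linarith
  · have h7 : 0 ≤ ∑ n ∈ Finset.range N, |B n| / (9 ^ n / (n.factorial : ℝ)) :=
      Finset.sum_nonneg fun _ _ => by positivity
    have := hN n h
    linarith

end Pool.Agent.W528.Apery.F₃
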