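import Pool.Agent.W528.Apery.Example

/-!
# The J-function of the toric Fano fourfold `P(O + O(3))` over `P³` in degrees zero and two
-/

set_option autoImplicit false

namespace Pool.Agent.W528.Apery

open MvPolynomial Filter Topology

namespace F₃

/-- divisor classes -/
noncomputable def D (i : Fin 6) : F₃.Coh := F₃.div i

lemma lin (j : Fin 4) : ∑ i : Fin 6, ((rays i j : ℤ) : F₃.Coh) * D i = 0 :=
  F₃.linear_relation j

lemma sr (S : Finset (Fin 6)) (hS : ∀ σ ∈ maxCones, ¬ S ⊆ σ) : ∏ i ∈ S, D i = 0 :=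
  F₃.stanleyReisner_relation S hS

lemma D0 : D 0 = D 3 := by
  have h := lin 0
  simp [Fin.sum_univ_succ, rays] at h
  linear_combination h

lemma D1 : D 1 = D 3 := by
  have h := lin 1
  simp [Fin.sum_univ_succ, rays] at h
  linear_combination h

lemma D2 : D 2 = D 3 := by
  have h := lin 2
  simp [Fin.sum_univ_succ, rays] at h
  linear_combination h

lemma D5 : D 5 = D 4 + 3 * D 3 := by
  have h := lin 3
  simp [Fin.sum_univ_succ, rays] at h
  linear_combination -h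

lemma D3_pow : D 3 ^ 4 = 0 := by
  have h := sr {0, 1, 2, 3} (by decide)
  simp [D0, D1, D2] at h
  linear_combination h

lemma D4_mul : D 4 * D 5 = 0 := by
  have h := sr {4, 5} (by decide)
  simpa using h

lemma D4_pow : D 4 ^ 5 = 0 := by
  have h1 := D4_mul
  rw [D5] at h1
  have h2 := D3_pow
  linear_combination (D 4 ^ 3 - 3 * D 3 * D 4 ^ 2 + 9 * D 3 ^ 2 * D 4 - 27 * D 3 ^ 3) * h1 +
    81 * D 4 * h2

lemma D5_pow : D 5 ^ 5 = 0 := by
  have h1 := D4_mul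
  have h0 : D 4 = D 5 - 3 * D 3 := by rw [D5]; ring
  rw [h0] at h1
  have h2 := D3_pow
  linear_combination (D 5 ^ 3 + 3 * D 3 * D 5 ^ 2 + 9 * D 3 ^ 2 * D 5 + 27 * D 3 ^ 3) * h1 +
    81 * D 5 * h2

lemma nilpotent (i : Fin 6) : IsNilpotent (F₃.div i) := by
  change IsNilpotent (D i)
  fin_cases i
  · exact ⟨4, by simpa [D0] using D3_pow⟩
  · exact ⟨4, by simpa [D1] using D3_pow⟩
  · exact ⟨4, by simpa [D2] using D3_pow⟩
  · exact ⟨4, D3_pow⟩
  · exact ⟨5, D4_pow⟩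
  · exact ⟨5, D5_pow⟩

lemma no4 : ∀ σ ∈ maxCones, ¬ (0 ∈ σ ∧ 1 ∈ σ ∧ 2 ∈ σ ∧ 3 ∈ σ) := by decide

lemma no2 : ∀ σ ∈ maxCones, ¬ (4 ∈ σ ∧ 5 ∈ σ) := by decide

/-- The curve classes. -/
def cls (n b : ℕ) : Fin 6 → ℤ :=
  ![n - 2 * b, n - 2 * b, n - 2 * b, n - 2 * b, b - 3 * (n - 2 * b), b]

lemma curves_eq (n : ℕ) :
    (F₃.curves n : Set (Fin 6 → ℤ)) =
      (((Finset.range (n / 2 + 1)).image (cls n) : Finset (Fin 6 → ℤ)) : Set (Fin 6 → ℤ)) := by
  refine Set.ext fun (k : Fin 6 → ℤ) => ?_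
  change ((∀ j : Fin 4, ∑ i : Fin 6, k i * rays i j = 0) ∧
    (∃ σ ∈ maxCones, ∀ i : Fin 6, k i < 0 → i ∈ σ) ∧ ∑ i : Fin 6, k i = n) ↔
    k ∈ (((Finset.range (n / 2 + 1)).image (cls n) : Finset (Fin 6 → ℤ)) : Set (Fin 6 → ℤ))
  rw [Finset.mem_coe, Finset.mem_image]
  constructor
  · rintro ⟨h1, ⟨σ, hσ, h2⟩, h3⟩
    have e0 := h1 0
    have e1 := h1 1
    have e2 := h1 2
    have e3 := h1 3
    simp [Fin.sum_univ_succ, rays] at e0 e1 e2 e3 h3
    have ha : 0 ≤ k 0 := by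
      by_contra hlt
      push Not at hlt
      exact no4 σ hσ ⟨h2 0 hlt, h2 1 (by omega), h2 2 (by omega), h2 3 (by omega)⟩
    have hb : 0 ≤ k 5 := by
      by_contra hlt
      push Not at hlt
      exact no2 σ hσ ⟨h2 4 (by omega), h2 5 hlt⟩
    refine ⟨(k 5).toNat, ?_, ?_⟩
    · rw [Finset.mem_range]
      omega
    · ext i
      fin_cases i <;> simp [cls] <;> omega
  · rintro ⟨b, hb, rfl⟩
    rw [Finset.mem_range] at hb
    have hb2 : 2 * b ≤ n := by omega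
    refine ⟨?_, ?_, ?_⟩
    · intro j
      fin_cases j <;> simp [Fin.sum_univ_succ, rays, cls] <;> ring
    · refine ⟨{0, 1, 2, 4}, by decide, ?_⟩
      intro i
      fin_cases i <;> simp [cls] <;> omega
    · simp [Fin.sum_univ_succ, cls]
      ring

lemma J_eq (n : ℕ) : F₃.J n = ∑ b ∈ Finset.range (n / 2 + 1),
    ∏ i : Fin 6, F₃.factor (F₃.div i) (cls n b i) := by
  unfold ToricFano.J
  rw [curves_eq]
  have h : ∀ s : Finset (Fin 6 → ℤ), ∑ᶠ k ∈ (s : Set (Fin 6 → ℤ)),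
      ∏ i : Fin 6, F₃.factor (F₃.div i) (k i) =
      ∑ k ∈ s, ∏ i : Fin 6, F₃.factor (F₃.div i) (k i) := fun s => finsum_mem_coe_finset _ s
  refine (h _).trans ?_
  rw [Finset.sum_image]
  intro b _ b' _ hbb
  have := congrFun hbb 5
  simpa [cls] using this

/-- The intersection numbers of the divisors with the class of curves. -/
def wt : Fin 6 → ℂ := ![2, 2, 2, 2, -7, -1]

lemma wt_rel (j : Fin 4) : ∑ i : Fin 6, wt i * ((rays i j : ℤ) : ℂ) = 0 := by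
  fin_cases j <;> simp [Fin.sum_univ_succ, rays, wt] <;> norm_num

lemma wt_sum : ∑ i : Fin 6, wt i = 0 := by
  simp [Fin.sum_univ_succ, wt]
  norm_num

/-- The homomorphism to the dual numbers. -/
noncomputable def φ : F₃.Coh →ₐ[ℂ] DualNumber ℂ := F₃.dual wt wt_rel

/-- The functional. -/
noncomputable def α : F₃.Coh →ₗ[ℂ] ℂ := F₃.curveFunctional wt wt_rel

/-- Coefficients in degree zero. -/
noncomputable def g (a b : ℕ) : ℝ :=
  if 3 * a ≤ b then 1 / ((a.factorial : ℝ) ^ 4 * b.factorial * (b - 3 * a).factorial) else 0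

/-- Coefficients in degree two, first part. -/
noncomputable def c1 (a b : ℕ) : ℝ :=
  if 3 * a ≤ b then (-8 * ((harmonic a : ℚ) : ℝ) + ((harmonic b : ℚ) : ℝ) +
    7 * ((harmonic (b - 3 * a) : ℚ) : ℝ)) / ((a.factorial : ℝ) ^ 4 * b.factorial *
      (b - 3 * a).factorial) else 0

/-- Coefficients in degree two, second part. -/
noncomputable def c2 (a b : ℕ) : ℝ :=
  if 3 * a ≤ b then 0 else
    -7 * (-1) ^ (3 * a - b - 1) * ((3 * a - b - 1).factorial : ℝ) /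
      ((a.factorial : ℝ) ^ 4 * b.factorial)

lemma φ_term (a b : ℕ) (k : Fin 6 → ℤ) (h0 : k 0 = a) (h1 : k 1 = a) (h2 : k 2 = a)
    (h3 : k 3 = a) (h4 : k 4 = (b : ℤ) - 3 * a) (h5 : k 5 = b) :
    φ (∏ i : Fin 6, F₃.factor (F₃.div i) (k i)) =
      TrivSqZeroExt.inl ((g a b : ℝ) : ℂ) + TrivSqZeroExt.inr ((c1 a b + c2 a b : ℝ) : ℂ) := by
  have ha : (a.factorial : ℂ) ≠ 0 := by exact_mod_cast a.factorial_ne_zero
  have hb : (b.factorial : ℂ) ≠ 0 := by exact_mod_cast b.factorial_ne_zero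
  rw [map_prod, Fin.prod_univ_six, h0, h1, h2, h3, h4, h5]
  have e0 := F₃.dual_factor_nonneg wt wt_rel (0 : Fin 6) (nilpotent 0) a
  have e1 := F₃.dual_factor_nonneg wt wt_rel (1 : Fin 6) (nilpotent 1) a
  have e2 := F₃.dual_factor_nonneg wt wt_rel (2 : Fin 6) (nilpotent 2) a
  have e3 := F₃.dual_factor_nonneg wt wt_rel (3 : Fin 6) (nilpotent 3) a
  have e5 := F₃.dual_factor_nonneg wt wt_rel (5 : Fin 6) (nilpotent 5) b
  have w0 : wt 0 = 2 := rfl
  have w1 : wt 1 = 2 := rfl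
  have w2 : wt 2 = 2 := rfl
  have w3 : wt 3 = 2 := rfl
  have w4 : wt 4 = -7 := rfl
  have w5 : wt 5 = -1 := rfl
  rw [w0] at e0
  rw [w1] at e1
  rw [w2] at e2
  rw [w3] at e3
  rw [w5] at e5
  unfold φ
  rw [e0, e1, e2, e3, e5]
  by_cases hab : 3 * a ≤ b
  · have hc : ((b : ℤ) - 3 * a) = ((b - 3 * a : ℕ) : ℤ) := by omega
    have e4 := F₃.dual_factor_nonneg wt wt_rel (4 : Fin 6) (nilpotent 4) (b - 3 * a)
    rw [w4] at e4
    rw [hc, e4]
    have hcf : ((b - 3 * a).factorial : ℂ) ≠ 0 := by exact_mod_cast (b - 3 * a).factorial_ne_zero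
    ext
    · simp [g, hab]
      field_simp
    · simp [c1, c2, hab]
      field_simp
      ring
  · have hc : ((b : ℤ) - 3 * a) = -(((3 * a - b - 1 : ℕ) : ℤ) + 1) := by omega
    have e4 := F₃.dual_factor_neg wt wt_rel (4 : Fin 6) (3 * a - b - 1)
    rw [w4] at e4
    rw [hc, e4]
    ext
    · simp [g, hab]
    · simp [c1, c2, hab]
      field_simp

lemma φ_J (n : ℕ) : φ (F₃.J n) =
    TrivSqZeroExt.inl ((∑ b ∈ Finset.range (n / 2 + 1), g (n - 2 * b) b : ℝ) : ℂ) +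
      TrivSqZeroExt.inr
        ((∑ b ∈ Finset.range (n / 2 + 1), (c1 (n - 2 * b) b + c2 (n - 2 * b) b) : ℝ) : ℂ) := by
  rw [J_eq, map_sum]
  have h : ∀ b ∈ Finset.range (n / 2 + 1),
      φ (∏ i : Fin 6, F₃.factor (F₃.div i) (cls n b i)) =
      TrivSqZeroExt.inl ((g (n - 2 * b) b : ℝ) : ℂ) +
        TrivSqZeroExt.inr ((c1 (n - 2 * b) b + c2 (n - 2 * b) b : ℝ) : ℂ) := by
    intro b hb
    rw [Finset.mem_range] at hb
    have hb2 : 2 * b ≤ n := by omega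
    have h1 : ((n : ℤ) - 2 * b) = ((n - 2 * b : ℕ) : ℤ) := by omega
    refine φ_term _ _ _ ?_ ?_ ?_ ?_ ?_ ?_ <;> simp [cls, h1]
  rw [Finset.sum_congr rfl h, Finset.sum_add_distrib]
  congr 1
  · rw [Complex.ofReal_sum]
    exact (TrivSqZeroExt.inl_sum _ _ _).symm
  · rw [Complex.ofReal_sum]
    exact (TrivSqZeroExt.inr_sum _ _ _).symm

lemma pt_J (n : ℕ) : F₃.pt (F₃.J n) =
    ((∑ b ∈ Finset.range (n / 2 + 1), g (n - 2 * b) b : ℝ) : ℂ) := by
  rw [← F₃.fst_dual wt wt_rel]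
  change (φ (F₃.J n)).fst = _
  rw [φ_J]
  simp

lemma α_J (n : ℕ) : α (F₃.J n) =
    ((∑ b ∈ Finset.range (n / 2 + 1), (c1 (n - 2 * b) b + c2 (n - 2 * b) b) : ℝ) : ℂ) := by
  change (φ (F₃.J n)).snd = _
  rw [φ_J]
  simp

lemma isIndex : F₃.IsIndex 1 := by
  constructor
  · refine ⟨Nat.one_pos, fun _ => 1, fun _ => 0, fun i => ?_⟩
    simp
  · rintro r ⟨hr, v, m, h⟩
    have h0 := h (0 : Fin 6)
    have h1 := h (1 : Fin 6)
    have h2 := h (2 : Fin 6)
    have h3 := h (3 : Fin 6)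
    have h4 := h (4 : Fin 6)
    have key : (r : ℤ) * (v (0 : Fin 6) + v (1 : Fin 6) + v (2 : Fin 6) + v (3 : Fin 6) -
        3 * v (4 : Fin 6)) = 1 := by
      have r0 : ∑ j, m j * F₃.ray (0 : Fin 6) j = m (0 : Fin 4) := by
        change ∑ j : Fin 4, m j * rays 0 j = _
        simp [Fin.sum_univ_succ, rays]
      have r1 : ∑ j, m j * F₃.ray (1 : Fin 6) j = m (1 : Fin 4) := by
        change ∑ j : Fin 4, m j * rays 1 j = _
        simp [Fin.sum_univ_succ, rays]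
      have r2 : ∑ j, m j * F₃.ray (2 : Fin 6) j = m (2 : Fin 4) := by
        change ∑ j : Fin 4, m j * rays 2 j = _
        simp [Fin.sum_univ_succ, rays]
      have r3 : ∑ j, m j * F₃.ray (3 : Fin 6) j =
          - m (0 : Fin 4) - m (1 : Fin 4) - m (2 : Fin 4) + 3 * m (3 : Fin 4) := by
        change ∑ j : Fin 4, m j * rays 3 j = _
        simp [Fin.sum_univ_succ, rays]
        ring
      have r4 : ∑ j, m j * F₃.ray (4 : Fin 6) j = m (3 : Fin 4) := by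
        change ∑ j : Fin 4, m j * rays 4 j = _
        simp [Fin.sum_univ_succ, rays]
      rw [r0] at h0
      rw [r1] at h1
      rw [r2] at h2
      rw [r3] at h3
      rw [r4] at h4
      linear_combination h0 + h1 + h2 + h3 - 3 * h4
    have h5 : (r : ℤ) ∣ 1 := ⟨_, key.symm⟩
    have h6 := Int.le_of_dvd one_pos h5
    omega

end F₃

end Pool.Agent.W528.Apery
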