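import Pool.Agent.W528.Apery.Growth

/-!
# The generating series of the second part of the coefficients in degree two
-/

set_option autoImplicit false

namespace Pool.Agent.W528.Apery.F₃

open Filter Topology

/-- The terms of the double series. -/
noncomputable def f (s : ℝ) (p : ℕ × ℕ) : ℝ := c2 p.1 p.2 * (-s) ^ (p.1 + 2 * p.2)

lemma f_eq (s : ℝ) (a b : ℕ) : f s (a, b) =
    if 3 * a ≤ b then 0 else 7 * ((-1) ^ b * ((3 * a - 1 - b).factorial : ℝ) / (b.factorial : ℝ) *
      (s ^ 2) ^ b) * (s ^ a / (a.factorial : ℝ) ^ 4) := by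
  unfold f c2
  simp only
  split_ifs with h
  · simp
  · have h1 : 3 * a - b - 1 = 3 * a - 1 - b := by omega
    rw [h1]
    have h2 : (-s) ^ (a + 2 * b) = (-1) ^ a * (s ^ a * (s ^ 2) ^ b) := by
      rw [neg_pow, pow_add s, pow_mul s, pow_add, pow_mul (-1 : ℝ)]
      norm_num
    rw [h2]
    have h3 : (-1 : ℝ) ^ (3 * a - 1 - b) * (-1) ^ a = - (-1) ^ b := by
      have h4 : (3 * a - 1 - b) + a + (b + 1) = 2 * (2 * a) := by omega
      have h5 : (-1 : ℝ) ^ (3 * a - 1 - b) * (-1) ^ a * (-1) ^ (b + 1) = 1 := by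
        rw [← pow_add, ← pow_add, h4, pow_mul]
        norm_num
      have h6 : ((-1 : ℝ) ^ (b + 1)) * (-1) ^ (b + 1) = 1 := by
        rw [← pow_add, ← two_mul, pow_mul]; norm_num
      calc (-1 : ℝ) ^ (3 * a - 1 - b) * (-1) ^ a
          = (-1 : ℝ) ^ (3 * a - 1 - b) * (-1) ^ a * ((-1) ^ (b + 1) * (-1) ^ (b + 1)) := by
            rw [h6, mul_one]
        _ = ((-1 : ℝ) ^ (3 * a - 1 - b) * (-1) ^ a * (-1) ^ (b + 1)) * (-1) ^ (b + 1) := by ring
        _ = - (-1) ^ b := by rw [h5, pow_succ]; ring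
    calc -7 * (-1) ^ (3 * a - 1 - b) * ((3 * a - 1 - b).factorial : ℝ) /
          ((a.factorial : ℝ) ^ 4 * b.factorial) * ((-1) ^ a * (s ^ a * (s ^ 2) ^ b))
        = -7 * ((-1) ^ (3 * a - 1 - b) * (-1) ^ a) * ((3 * a - 1 - b).factorial : ℝ) /
          ((a.factorial : ℝ) ^ 4 * b.factorial) * (s ^ a * (s ^ 2) ^ b) := by ring
      _ = _ := by
        rw [h3]
        have ha : (a.factorial : ℝ) ≠ 0 := by exact_mod_cast a.factorial_ne_zero
        have hb : (b.factorial : ℝ) ≠ 0 := by exact_mod_cast b.factorial_ne_zero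
        field_simp

lemma norm_f_le (s : ℝ) (hs : 0 ≤ s) (a b : ℕ) : ‖f s (a, b)‖ ≤
    (7 * ((27 * s) ^ a / (a.factorial : ℝ))) * ((s ^ 2) ^ b / (b.factorial : ℝ)) := by
  rw [f_eq]
  split_ifs with h
  · rw [norm_zero]; positivity
  · rw [Real.norm_eq_abs, abs_mul, abs_mul, abs_mul, abs_div, abs_mul, abs_pow, abs_neg, abs_one,
      one_pow, one_mul, abs_of_nonneg (show (0 : ℝ) ≤ 7 by norm_num),
      abs_of_nonneg (show (0 : ℝ) ≤ ((3 * a - 1 - b).factorial : ℝ) by positivity),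
      abs_of_nonneg (show (0 : ℝ) ≤ (b.factorial : ℝ) by positivity),
      abs_of_nonneg (show (0 : ℝ) ≤ (s ^ 2) ^ b by positivity),
      abs_of_nonneg (show (0 : ℝ) ≤ s ^ a / (a.factorial : ℝ) ^ 4 by positivity)]
    have h1 : ((3 * a - 1 - b).factorial : ℝ) ≤ 27 ^ a * (a.factorial : ℝ) ^ 3 := by
      have h2 : (3 * a - 1 - b).factorial ≤ (3 * a).factorial := Nat.factorial_le (by omega)
      exact_mod_cast h2.trans (fact_three_upper a)
    calc 7 * (((3 * a - 1 - b).factorial : ℝ) / (b.factorial : ℝ) * (s ^ 2) ^ b) *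
          (s ^ a / (a.factorial : ℝ) ^ 4)
        ≤ 7 * ((27 ^ a * (a.factorial : ℝ) ^ 3) / (b.factorial : ℝ) * (s ^ 2) ^ b) *
          (s ^ a / (a.factorial : ℝ) ^ 4) := by gcongr
      _ = _ := by
        have ha : (a.factorial : ℝ) ≠ 0 := by exact_mod_cast a.factorial_ne_zero
        rw [mul_pow]
        field_simp

lemma summable_f (s : ℝ) (hs : 0 ≤ s) : Summable (f s) := by
  have h1 : Summable fun a : ℕ => 7 * ((27 * s) ^ a / (a.factorial : ℝ)) :=
    (hasSum_exp (27 * s)).summable.mul_left 7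
  have h2 : Summable fun b : ℕ => (s ^ 2) ^ b / (b.factorial : ℝ) := (hasSum_exp (s ^ 2)).summable
  have h3 := h1.mul_of_nonneg h2 (fun a => by positivity) (fun b => by positivity)
  refine Summable.of_norm_bounded h3 ?_
  rintro ⟨a, b⟩
  exact norm_f_le s hs a b

/-! ### The upper bound -/

lemma fiber_eq (n : ℕ) : (fun p : ℕ × ℕ => p.1 + 2 * p.2) ⁻¹' {n} =
    (((Finset.range (n / 2 + 1)).image fun b => (n - 2 * b, b) : Finset (ℕ × ℕ)) :
      Set (ℕ × ℕ)) := by
  ext ⟨a, b⟩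
  simp only [Set.mem_preimage, Set.mem_singleton_iff, Finset.coe_image, Finset.coe_range,
    Set.mem_image, Set.mem_Iio, Prod.mk.injEq]
  constructor
  · intro h
    exact ⟨b, by omega, by omega, rfl⟩
  · rintro ⟨b', h1, h2, rfl⟩
    omega

lemma hasSum_f (s : ℝ) (hs : 0 ≤ s) : HasSum (fun n : ℕ => B n * (-s) ^ n) (∑' p, f s p) := by
  have h := (summable_f s hs).hasSum.tsum_fiberwise (fun p : ℕ × ℕ => p.1 + 2 * p.2)
  refine h.congr_fun ?_
  intro n
  rw [fiber_eq]
  refine Eq.trans ?_ (Finset.tsum_subtype' _ (f s)).symm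
  rw [Finset.sum_image (fun b _ b' _ h => (Prod.mk.inj h).2)]
  unfold B
  rw [Finset.sum_mul]
  refine Finset.sum_congr rfl fun b hb => ?_
  rw [Finset.mem_range] at hb
  unfold f
  simp only
  have : n - 2 * b + 2 * b = n := by omega
  rw [this]

lemma tsum_le (s : ℝ) (hs : 0 ≤ s) (M : ℝ) (hM : ∀ n, |B n| ≤ M * (9 ^ n / (n.factorial : ℝ))) :
    ∑' p, f s p ≤ M * Real.exp (9 * s) := by
  have h1 := (hasSum_exp (9 * s)).mul_left M
  refine hasSum_le ?_ (hasSum_f s hs) h1
  intro n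
  refine (le_abs_self _).trans ?_
  rw [abs_mul, abs_pow, abs_neg, abs_of_nonneg hs]
  refine (mul_le_mul_of_nonneg_right (hM n) (pow_nonneg hs n)).trans (le_of_eq ?_)
  rw [mul_pow]
  ring

/-! ### The lower bound -/

lemma tsum_row (s : ℝ) (c : ℕ) : ∑' b, f s (c + 1, b) =
    7 * P (3 * c + 2) (s ^ 2) * (s ^ (c + 1) / ((c + 1).factorial : ℝ) ^ 4) := by
  rw [tsum_eq_sum (s := Finset.range (3 * c + 2 + 1))]
  · unfold P
    rw [Finset.mul_sum, Finset.sum_mul]
    refine Finset.sum_congr rfl fun b hb => ?_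
    rw [Finset.mem_range] at hb
    rw [f_eq, if_neg (by omega)]
    have h : 3 * (c + 1) - 1 - b = 3 * c + 2 - b := by omega
    rw [h]
  · intro b hb
    rw [Finset.mem_range, not_lt] at hb
    rw [f_eq, if_pos (by omega)]

lemma tsum_row_zero (s : ℝ) : ∑' b, f s (0, b) = 0 := by
  have h : ∀ b, f s (0, b) = 0 := by
    intro b
    rw [f_eq, if_pos (by omega)]
  simp [h]

/-- The lower bound for the rows. -/
noncomputable def L (s : ℝ) (a : ℕ) : ℝ :=
  7 * (Real.exp (-s) / 40 * ((18 * s) ^ a / (a.factorial : ℝ)) -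
    (Real.exp (2 * s) + Real.exp (4 * s)) * (s ^ a / (a.factorial : ℝ)))

lemma L_le (s : ℝ) (hs : 1 ≤ s) (a : ℕ) : L s a ≤ ∑' b, f s (a, b) := by
  have hs0 : 0 < s := by linarith
  rcases a with _ | c
  · rw [tsum_row_zero]
    unfold L
    simp only [pow_zero, Nat.factorial_zero, Nat.cast_one, div_one, mul_one]
    have h1 : Real.exp (-s) ≤ Real.exp (2 * s) := Real.exp_le_exp.2 (by linarith)
    have h2 := Real.exp_pos (4 * s)
    have h3 := Real.exp_pos (2 * s)
    linarith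
  · rw [tsum_row]
    have h1 := P_lower (3 * c + 2) s hs0
    set N := 3 * c + 2 with hN
    have hf : (0 : ℝ) < ((c + 1).factorial : ℝ) := by positivity
    have hfN : (0 : ℝ) < (N.factorial : ℝ) := by positivity
    have hE := Real.exp_pos (-s)
    -- the three terms
    have hX : (0 : ℝ) ≤ s ^ (c + 1) / ((c + 1).factorial : ℝ) := by positivity
    have hXle : s ^ (c + 1) / ((c + 1).factorial : ℝ) ≤ Real.exp s :=
      Real.pow_div_factorial_le_exp s hs0.le _
    set X := s ^ (c + 1) / ((c + 1).factorial : ℝ) with hXdef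
    have hlow : (18 * s) ^ (c + 1) / ((c + 1).factorial : ℝ) / 40 ≤
        (N.factorial : ℝ) * (s ^ (c + 1) / ((c + 1).factorial : ℝ) ^ 4) := by
      have h2 : (18 : ℝ) ^ (c + 1) * ((c + 1).factorial : ℝ) ^ 3 ≤ 40 * (N.factorial : ℝ) := by
        exact_mod_cast fact_three_lower c
      rw [mul_pow, div_div, div_le_iff₀ (by positivity)]
      have h3 : (N.factorial : ℝ) * (s ^ (c + 1) / ((c + 1).factorial : ℝ) ^ 4) *
          (((c + 1).factorial : ℝ) * 40) =
          (40 * (N.factorial : ℝ)) * (s ^ (c + 1) / ((c + 1).factorial : ℝ) ^ 3) := by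
        field_simp
      rw [h3]
      refine le_trans (le_of_eq ?_) (mul_le_mul_of_nonneg_right h2 (by positivity))
      field_simp
    have h3 : s ^ N * (s ^ (c + 1) / ((c + 1).factorial : ℝ) ^ 4) ≤ Real.exp (3 * s) * X := by
      have h4 : s ^ N ≤ s ^ (3 * (c + 1)) := pow_le_pow_right₀ hs (by omega)
      have h5 : s ^ (3 * (c + 1)) * (s ^ (c + 1) / ((c + 1).factorial : ℝ) ^ 4) = X ^ 3 * X := by
        rw [hXdef, div_pow, ← pow_mul, mul_comm 3 (c + 1)]
        field_simp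
      have h6 : X ^ 3 ≤ Real.exp (3 * s) := by
        have : Real.exp (3 * s) = Real.exp s ^ 3 := by
          rw [← Real.exp_nat_mul]; norm_num
        rw [this]
        exact pow_le_pow_left₀ hX hXle 3
      calc s ^ N * (s ^ (c + 1) / ((c + 1).factorial : ℝ) ^ 4)
          ≤ s ^ (3 * (c + 1)) * (s ^ (c + 1) / ((c + 1).factorial : ℝ) ^ 4) :=
            mul_le_mul_of_nonneg_right h4 (by positivity)
        _ = X ^ 3 * X := h5
        _ ≤ Real.exp (3 * s) * X := mul_le_mul_of_nonneg_right h6 hX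
    have h4 : s ^ N / (N.factorial : ℝ) ≤ Real.exp s := Real.pow_div_factorial_le_exp s hs0.le _
    have h5 : s ^ (2 * N) / (N.factorial : ℝ) * (s ^ (c + 1) / ((c + 1).factorial : ℝ) ^ 4) ≤
        Real.exp (4 * s) * X := by
      have h6 : s ^ (2 * N) / (N.factorial : ℝ) * (s ^ (c + 1) / ((c + 1).factorial : ℝ) ^ 4) =
          (s ^ N / (N.factorial : ℝ)) * (s ^ N * (s ^ (c + 1) / ((c + 1).factorial : ℝ) ^ 4)) := by
        rw [two_mul, pow_add]
        ring
      rw [h6]
      have h7 : Real.exp (4 * s) = Real.exp s * Real.exp (3 * s) := by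
        rw [← Real.exp_add]; congr 1; ring
      rw [h7, mul_assoc]
      exact mul_le_mul h4 h3 (by positivity) (Real.exp_pos s).le
    have h6 : Real.exp (-s) * Real.exp (3 * s) = Real.exp (2 * s) := by
      rw [← Real.exp_add]; congr 1; ring
    have h7 : (Real.exp (-s) * ((N.factorial : ℝ) - s ^ N) - s ^ (2 * N) / (N.factorial : ℝ)) *
        (s ^ (c + 1) / ((c + 1).factorial : ℝ) ^ 4) ≤
        P N (s ^ 2) * (s ^ (c + 1) / ((c + 1).factorial : ℝ) ^ 4) :=
      mul_le_mul_of_nonneg_right h1 (by positivity)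
    have h8 := mul_le_mul_of_nonneg_left hlow hE.le
    have h9 := mul_le_mul_of_nonneg_left h3 hE.le
    rw [← mul_assoc, ← mul_assoc, h6] at h9
    unfold L
    rw [← hXdef]
    have h10 : 7 * P N (s ^ 2) * (s ^ (c + 1) / ((c + 1).factorial : ℝ) ^ 4) =
        7 * (P N (s ^ 2) * (s ^ (c + 1) / ((c + 1).factorial : ℝ) ^ 4)) := by ring
    rw [h10]
    apply mul_le_mul_of_nonneg_left _ (by norm_num)
    refine le_trans ?_ h7
    have h11 : (Real.exp (-s) * ((N.factorial : ℝ) - s ^ N) - s ^ (2 * N) / (N.factorial : ℝ)) *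
        (s ^ (c + 1) / ((c + 1).factorial : ℝ) ^ 4) =
        Real.exp (-s) * ((N.factorial : ℝ) * (s ^ (c + 1) / ((c + 1).factorial : ℝ) ^ 4)) -
        Real.exp (-s) * s ^ N * (s ^ (c + 1) / ((c + 1).factorial : ℝ) ^ 4) -
        s ^ (2 * N) / (N.factorial : ℝ) * (s ^ (c + 1) / ((c + 1).factorial : ℝ) ^ 4) := by ring
    rw [h11]
    have h12 : Real.exp (-s) / 40 * ((18 * s) ^ (c + 1) / ((c + 1).factorial : ℝ)) =
        Real.exp (-s) * ((18 * s) ^ (c + 1) / ((c + 1).factorial : ℝ) / 40) := by ring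
    rw [h12]
    linarith

lemma le_tsum (s : ℝ) (hs : 1 ≤ s) :
    7 * (Real.exp (17 * s) / 40 - (Real.exp (3 * s) + Real.exp (5 * s))) ≤ ∑' p, f s p := by
  have hs0 : 0 ≤ s := by linarith
  have hsum := summable_f s hs0
  rw [hsum.tsum_prod]
  have h1 : HasSum (L s) (7 * (Real.exp (-s) / 40 * Real.exp (18 * s) -
      (Real.exp (2 * s) + Real.exp (4 * s)) * Real.exp s)) :=
    (((hasSum_exp (18 * s)).mul_left _).sub ((hasSum_exp s).mul_left _)).mul_left 7
  have h2 : 7 * (Real.exp (-s) / 40 * Real.exp (18 * s) -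
      (Real.exp (2 * s) + Real.exp (4 * s)) * Real.exp s) =
      7 * (Real.exp (17 * s) / 40 - (Real.exp (3 * s) + Real.exp (5 * s))) := by
    have e1 : Real.exp (17 * s) = Real.exp (-s) * Real.exp (18 * s) := by
      rw [← Real.exp_add]; congr 1; ring
    have e2 : Real.exp (3 * s) = Real.exp (2 * s) * Real.exp s := by
      rw [← Real.exp_add]; congr 1; ring
    have e3 : Real.exp (5 * s) = Real.exp (4 * s) * Real.exp s := by
      rw [← Real.exp_add]; congr 1; ring
    rw [e1, e2, e3]; ring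
  rw [← h2, ← h1.tsum_eq]
  exact h1.summable.tsum_le_tsum (L_le s hs) hsum.prod

/-- The coefficients in degree two are not bounded by a multiple of those in degree zero. -/
theorem not_bounded (C : ℝ) : ¬ ∀ᶠ n in atTop, |A n| ≤ C * G n := by
  intro hC
  obtain ⟨M, hM⟩ := exists_bound C hC
  set s : ℝ := 6 * |M| + 80 with hs
  have hM0 : 0 ≤ |M| := abs_nonneg M
  have hs1 : 1 ≤ s := by linarith
  have h1 := le_tsum s hs1
  have h2 := tsum_le s (by linarith) M hM
  have h3 : M * Real.exp (9 * s) ≤ |M| * Real.exp (9 * s) :=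
    mul_le_mul_of_nonneg_right (le_abs_self M) (Real.exp_pos _).le
  have e1 : Real.exp (3 * s) ≤ Real.exp (9 * s) := Real.exp_le_exp.2 (by linarith)
  have e2 : Real.exp (5 * s) ≤ Real.exp (9 * s) := Real.exp_le_exp.2 (by linarith)
  have e3 : Real.exp (17 * s) = Real.exp (8 * s) * Real.exp (9 * s) := by
    rw [← Real.exp_add]; congr 1; ring
  have h4 : Real.exp (8 * s) * Real.exp (9 * s) ≤ (6 * |M| + 80) * Real.exp (9 * s) := by
    rw [← e3]
    have : 0 ≤ |M| * Real.exp (9 * s) := by positivity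
    nlinarith
  have h5 : Real.exp (8 * s) ≤ 6 * |M| + 80 := le_of_mul_le_mul_right h4 (Real.exp_pos _)
  have h6 := Real.add_one_le_exp (8 * s)
  linarith

end Pool.Agent.W528.Apery.F₃
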